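import Pool.Agent.Y223.G.Stm14
import Pool.Agent.Y363.H.Ecf

/-!
# Products of elliptic curves, wild ramification over `2`: the operator has no zeros outside the
vertex

The proof follows helper363's proof of `t_ECF` (`Pool.Agent.Y363.H.Ecf`).
-/

set_option autoImplicit false

namespace Pool.Agent.Y31.H.Ec2f

open Pool.Agent.Y223.G
open Pool.Agent.Y872.H (pos_gen)
open Pool.Agent.Y86.G5 (im im_mul im_prime im_one im_pow)
open Pool.Agent.Y363.H (FS_pow cube_FS FS_AF)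

theorem t_EC2F : S_RWB → S_EC2E → S_EC2F := by
  intro hRWB hECE k O K Ω _ _ _ _ _ _ _ _ _ _ hinj τ t 𝔓 hmax hne l hl hπ z Wc B hE d Φ hd hΦ hΦ0
    hτΦ Q hQ hQ0 hv
  by_contra hcon
  push Not at hcon
  obtain ⟨hc0, -, -, hss, -, hpw, -⟩ := hRWB k O K Ω 𝔓 3 three_pos 2 (WE l B) z d Φ
  obtain ⟨R, hR⟩ : ∃ R, R = RW k 𝔓 3 (WE l B) z d Φ := ⟨_, rfl⟩
  subst hR
  have hδ : ∀ b ∈ RW k 𝔓 3 (WE l B) z d Φ, hm ((3 * l : ℕ) : ℤ) 1 * (tl τ b - b) ∈
      im (RW k 𝔓 3 (WE l B) z d Φ) Q := fun b hb =>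
    ⟨hECE k O K Ω τ t 𝔓 l hl z Wc B hE d Φ hτΦ b hb, hcon b hb _⟩
  have hO : ∀ o : O, hm 0 (algebraMap O K o) ∈ RW k 𝔓 3 (WE l B) z d Φ := fun o =>
    hc0 _ ((CG O z d Φ).algebraMap_mem o)
  have hOQ : ∀ e ∈ 𝔓, hm 0 (algebraMap O K e) ∈ im (RW k 𝔓 3 (WE l B) z d Φ) Q := hQ0
  -- the units modulo `𝔓`
  have h0 : ∀ s, s ∉ 𝔓 → hm 0 (algebraMap O K s) ∉ im (RW k 𝔓 3 (WE l B) z d Φ) Q := by
    intro s hs h
    obtain ⟨y, i, hi, hyi⟩ := hmax.exists_inv hs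
    apply im_one hQ
    have e : (1 : LP K) = hm 0 (algebraMap O K y) * hm 0 (algebraMap O K s) +
        hm 0 (algebraMap O K i) := by
      rw [hm_mul, add_zero, ← map_mul, ← hm_add, ← map_add, hyi, map_one, hm_one]
    rw [e]
    exact add_mem (im_mul (hO y) h) (hOQ i hi)
  -- the elements of `𝔓` in degree 3
  have h2R : ∀ e ∈ 𝔓, hm 3 (algebraMap O K e) ∈ RW k 𝔓 3 (WE l B) z d Φ := by
    intro e he
    have h := hpw 1 e (by rwa [pow_one])
    exact h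
  have h2 : ∀ e ∈ 𝔓, hm 3 (algebraMap O K e) ∈ im (RW k 𝔓 3 (WE l B) z d Φ) Q := by
    obtain ⟨π, hπ1, hπ2⟩ := hπ
    have hc1 : t π - π ∈ 𝔓 ^ (l + 1) := hE.dv π
    have hcQ : hm ((3 * (l + 1) : ℕ) : ℤ) (algebraMap O K (t π - π)) ∈
        im (RW k 𝔓 3 (WE l B) z d Φ) Q := by
      have h := hδ _ (h2R π hπ1)
      rw [tl_hm, hE.com, ← hm_sub, ← map_sub, hm_mul, one_mul] at h
      have e : ((3 * l : ℕ) : ℤ) + 3 = ((3 * (l + 1) : ℕ) : ℤ) := by
        push_cast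
        ring
      rwa [e] at h
    have hf : ∀ f ∈ 𝔓 ^ (l + 2), hm ((3 * (l + 1) : ℕ) : ℤ) (algebraMap O K f) ∈
        im (RW k 𝔓 3 (WE l B) z d Φ) Q := by
      intro f hf
      rw [pow_succ'] at hf
      refine Submodule.mul_induction_on hf ?_ ?_
      · intro a ha b hb
        have e : hm ((3 * (l + 1) : ℕ) : ℤ) (algebraMap O K (a * b)) =
            hm ((3 * (l + 1) : ℕ) : ℤ) (algebraMap O K b) * hm 0 (algebraMap O K a) := by
          rw [hm_mul, add_zero, ← map_mul, mul_comm b a]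
        rw [e]
        exact im_mul (hpw _ b hb) (hOQ a ha)
      · intro a b ha hb
        rw [map_add, hm_add]
        exact add_mem ha hb
    intro e he
    by_contra hne2
    apply im_pow hQ (h2R e he) hne2 (l + 1)
    obtain ⟨d', e', he', heq⟩ := Ideal.exists_mul_add_mem_pow_succ hne (t π - π) (e ^ (l + 1))
      hc1 hπ2 (Ideal.pow_mem_pow he _)
    have e1 : hm 3 (algebraMap O K e) ^ (l + 1) =
        hm 0 (algebraMap O K d') * hm ((3 * (l + 1) : ℕ) : ℤ) (algebraMap O K (t π - π)) +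
        hm ((3 * (l + 1) : ℕ) : ℤ) (algebraMap O K e') := by
      rw [hm_mul, zero_add, ← map_mul, ← hm_add, ← map_add, mul_comm d', heq, map_pow, hm_pow]
      congr 1
      push_cast
      ring
    rw [e1]
    exact add_mem (im_mul (hO d') hcQ) (hf e' he')
  have hl3 : ∀ n : ℕ, 1 ≤ n → ∀ x ∈ 𝔓 ^ n, hm ((3 * n : ℕ) : ℤ) (algebraMap O K x) ∈
      im (RW k 𝔓 3 (WE l B) z d Φ) Q := by
    intro n hn
    obtain ⟨n', rfl⟩ := Nat.exists_eq_add_of_le' hn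
    intro x hx
    rw [pow_succ] at hx
    refine Submodule.mul_induction_on hx ?_ ?_
    · intro a ha b hb
      have e : hm ((3 * (n' + 1) : ℕ) : ℤ) (algebraMap O K (a * b)) =
          hm ((3 * n' : ℕ) : ℤ) (algebraMap O K a) * hm 3 (algebraMap O K b) := by
        rw [hm_mul, ← map_mul]
        congr 1
      rw [e]
      exact im_mul (hpw _ a ha) (h2 b hb)
    · intro a b ha hb
      rw [map_add, hm_add]
      exact add_mem ha hb
  have hlj : ∀ n j : ℕ, 1 ≤ n → j ≤ 3 * n → ∀ x ∈ 𝔓 ^ n, hm (j : ℤ) (algebraMap O K x) ∈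
      im (RW k 𝔓 3 (WE l B) z d Φ) Q := by
    intro n j hn hj x hx
    obtain ⟨i, hi⟩ := Nat.exists_eq_add_of_le hj
    have e : hm (j : ℤ) (algebraMap O K x) =
        hm (-1) 1 ^ i * hm ((3 * n : ℕ) : ℤ) (algebraMap O K x) := by
      rw [hm_pow, one_pow, hm_mul, one_mul, hi]
      congr 1
      push_cast
      ring
    rw [e]
    exact im_mul (Subalgebra.pow_mem _ hss i) (hl3 n hn x hx)
  -- the curves in `B`
  have hν : ∀ ω ∈ B, ∀ a b c : ℕ, a + b + c = d →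
      hm ((l * a + 3 * l * c : ℕ) : ℤ) (z ω 0 ^ a * z ω 1 ^ b / Φ ω) ∈
        RW k 𝔓 3 (WE l B) z d Φ := by
    intro ω hω a b c habc
    refine Algebra.subset_adjoin (Or.inr ⟨ω, ![a, b, c], ?_, ?_⟩)
    · rw [Fin.sum_univ_three]
      exact habc
    · rw [Fin.sum_univ_three, Fin.prod_univ_three]
      have e1 : WE l B ω = ![l, 0, 3 * l] := if_pos hω
      rw [e1]
      show _ = hm ((l * a + 0 * b + 3 * l * c : ℕ) : ℤ)
        (z ω 0 ^ a * z ω 1 ^ b * z ω 2 ^ c / Φ ω)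
      rw [(hE.ec ω).z2, one_pow, mul_one, zero_mul, add_zero]
  have hB3 : ∀ ω ∈ B, hm ((3 * l * d : ℕ) : ℤ) (1 / Φ ω) ∈ im (RW k 𝔓 3 (WE l B) z d Φ) Q := by
    intro ω hω
    obtain ⟨u, r, s, v, -, hv1, hu, -, ⟨n, hn, hs⟩, hvB, -⟩ := hE.tu ω
    obtain ⟨d', rfl⟩ := Nat.exists_eq_add_of_le' hd
    have hb := hν ω hω 0 1 d' (by ring)
    have hb2 := hν ω hω 1 0 d' (by ring)
    have h := hδ _ hb
    have h3 := hν ω hω 0 0 (d' + 1) (by ring)
    rw [mul_zero, zero_add, pow_zero, pow_zero, one_mul] at h3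
    have hu3 : 1 - u ^ 3 ∈ 𝔓 ^ l := by
      have e : 1 - u ^ 3 = (-(u ^ 2 + u + 1)) * (u - 1) := by ring
      rw [e]
      exact (𝔓 ^ l).mul_mem_left _ hu
    have hs3 : -(s * u ^ 2) ∈ 𝔓 ^ n := by
      have e : -(s * u ^ 2) = (-(u ^ 2)) * s := by ring
      rw [e]
      exact (𝔓 ^ n).mul_mem_left _ hs
    have hτ1 : τ (z ω 0 ^ 0 * z ω 1 ^ 1 / Φ ω) =
        (algebraMap O K (u ^ 3) * z ω 1 + algebraMap O K (s * u ^ 2) * z ω 0 +
          algebraMap O K v) / Φ ω := by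
      rw [pow_one, pow_zero, one_mul, map_div₀, hτΦ, hv1]
    have e1 : hm 0 (algebraMap O K v) * hm ((3 * l * (d' + 1) : ℕ) : ℤ) (1 / Φ ω) =
        hm ((3 * l : ℕ) : ℤ) 1 * (tl τ (hm ((l * 0 + 3 * l * d' : ℕ) : ℤ)
          (z ω 0 ^ 0 * z ω 1 ^ 1 / Φ ω)) - hm ((l * 0 + 3 * l * d' : ℕ) : ℤ)
          (z ω 0 ^ 0 * z ω 1 ^ 1 / Φ ω)) +
        hm ((l * 0 + 3 * l * d' : ℕ) : ℤ) (z ω 0 ^ 0 * z ω 1 ^ 1 / Φ ω) *
          hm ((3 * l : ℕ) : ℤ) (algebraMap O K (1 - u ^ 3)) +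
        hm ((l * 1 + 3 * l * d' : ℕ) : ℤ) (z ω 0 ^ 1 * z ω 1 ^ 0 / Φ ω) *
          hm ((2 * l : ℕ) : ℤ) (algebraMap O K (-(s * u ^ 2))) := by
      rw [tl_hm, hτ1, ← hm_sub, hm_mul, hm_mul, hm_mul, hm_mul]
      have e2 : ((3 * l : ℕ) : ℤ) + ((l * 0 + 3 * l * d' : ℕ) : ℤ) =
          ((3 * l * (d' + 1) : ℕ) : ℤ) := by
        push_cast
        ring
      have e3 : ((l * 0 + 3 * l * d' : ℕ) : ℤ) + ((3 * l : ℕ) : ℤ) =
          ((3 * l * (d' + 1) : ℕ) : ℤ) := by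
        push_cast
        ring
      have e4 : ((l * 1 + 3 * l * d' : ℕ) : ℤ) + ((2 * l : ℕ) : ℤ) =
          ((3 * l * (d' + 1) : ℕ) : ℤ) := by
        push_cast
        ring
      rw [e2, e3, e4, zero_add, ← hm_add, ← hm_add]
      congr 1
      rw [map_sub, map_neg, map_one, pow_one, pow_zero, one_mul, pow_zero, mul_one, pow_one]
      ring
    have h4 : hm 0 (algebraMap O K v) * hm ((3 * l * (d' + 1) : ℕ) : ℤ) (1 / Φ ω) ∈
        im (RW k 𝔓 3 (WE l B) z (d' + 1) Φ) Q := by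
      rw [e1]
      exact add_mem (add_mem h (im_mul hb (hl3 l hl _ hu3)))
        (im_mul hb2 (hlj n (2 * l) (by omega) hn _ hs3))
    exact (im_prime hQ (hO v) h3 h4).resolve_left (h0 v (hvB hω))
  have hB1 : ∀ ω ∈ B, hm ((l * d : ℕ) : ℤ) (z ω 0 ^ d / Φ ω) ∈
      im (RW k 𝔓 3 (WE l B) z d Φ) Q := by
    intro ω hω
    have h1 := hν ω hω d 0 0 (by ring)
    rw [mul_zero, add_zero, pow_zero, mul_one] at h1
    by_contra hne2
    apply im_pow hQ h1 hne2 3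
    have h3 : z ω 0 ^ (3 * d) / Φ ω ^ 2 ∈ CG O z d Φ := by
      have h4 := FS_pow (cube_FS (hE.ec ω)) d
      rw [← pow_mul, two_mul] at h4
      exact le_iSup (fun ω => AF O (z ω) d (Φ ω)) ω (FS_AF h4)
    have e1 : hm ((l * d : ℕ) : ℤ) (z ω 0 ^ d / Φ ω) ^ 3 =
        hm 0 (z ω 0 ^ (3 * d) / Φ ω ^ 2) * hm ((3 * l * d : ℕ) : ℤ) (1 / Φ ω) := by
      rw [hm_pow, hm_mul]
      have e2 : ((3 : ℕ) : ℤ) * ((l * d : ℕ) : ℤ) = 0 + ((3 * l * d : ℕ) : ℤ) := by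
        push_cast
        ring
      rw [e2]
      congr 1
      rw [div_pow, ← pow_mul, mul_comm d 3, div_mul_div_comm, mul_one]
      congr 1
      ring
    rw [e1]
    exact im_mul (hc0 _ h3) (hB3 ω hω)
  have hBa : ∀ ω ∈ B, ∀ a b c : ℕ, a + b + c = d → 0 < l * a + 3 * l * c →
      hm ((l * a + 3 * l * c : ℕ) : ℤ) (z ω 0 ^ a * z ω 1 ^ b / Φ ω) ∈
        im (RW k 𝔓 3 (WE l B) z d Φ) Q := by
    intro ω hω a b c habc hac
    by_contra hne2
    apply im_pow hQ (hν ω hω a b c habc) hne2 d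
    have h1 := hB1 ω hω
    have h3 := hB3 ω hω
    have h5 := hν ω hω 0 d 0 (by ring)
    rw [mul_zero, mul_zero, add_zero, pow_zero, one_mul] at h5
    have e1 : hm ((l * a + 3 * l * c : ℕ) : ℤ) (z ω 0 ^ a * z ω 1 ^ b / Φ ω) ^ d =
        hm ((0 : ℕ) : ℤ) (z ω 1 ^ d / Φ ω) ^ b * (hm ((l * d : ℕ) : ℤ) (z ω 0 ^ d / Φ ω) ^ a *
          hm ((3 * l * d : ℕ) : ℤ) (1 / Φ ω) ^ c) := by
      rw [hm_pow, hm_pow, hm_pow, hm_pow, hm_mul, hm_mul]
      have e2 : (d : ℤ) * ((l * a + 3 * l * c : ℕ) : ℤ) = (b : ℤ) * ((0 : ℕ) : ℤ) +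
          ((a : ℤ) * ((l * d : ℕ) : ℤ) + (c : ℤ) * ((3 * l * d : ℕ) : ℤ)) := by
        push_cast
        ring
      rw [e2]
      congr 1
      rw [div_pow, div_pow, div_pow, div_pow, div_mul_div_comm, div_mul_div_comm]
      congr 1
      · rw [mul_pow, one_pow, ← pow_mul, ← pow_mul, ← pow_mul, ← pow_mul]
        ring
      · rw [← pow_add, ← pow_add]
        congr 1
        omega
    rw [e1]
    refine im_mul (Subalgebra.pow_mem _ h5 b) ?_
    rcases Nat.eq_zero_or_pos a with ha | ha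
    · have hc : 0 < c := by
        rcases Nat.eq_zero_or_pos c with hc | hc
        · rw [ha, hc, mul_zero, mul_zero] at hac
          exact absurd hac (lt_irrefl _)
        · exact hc
      obtain ⟨c', rfl⟩ := Nat.exists_eq_add_of_le' hc
      rw [pow_succ, ← mul_assoc]
      exact im_mul (Subalgebra.mul_mem _ (Subalgebra.pow_mem _ h1.1 _)
        (Subalgebra.pow_mem _ h3.1 _)) h3
    · obtain ⟨a', rfl⟩ := Nat.exists_eq_add_of_le' ha
      rw [pow_succ, mul_comm, ← mul_assoc]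
      exact im_mul (Subalgebra.mul_mem _ (Subalgebra.pow_mem _ h3.1 _)
        (Subalgebra.pow_mem _ h1.1 _)) h1
  -- all elements of positive degree
  obtain ⟨e, η, he, he0, heQ⟩ := hv
  apply heQ
  have h3 := pos_gen (k := k) _ (RW k 𝔓 3 (WE l B) z d Φ) rfl Q (fun s hs => ?_) (hm e η) he e
    (by exact_mod_cast he0)
  · rw [coeff_hm_same] at h3
    exact h3.2
  · rcases hs with ((hs | ⟨a, ha, rfl⟩) | ⟨o, rfl⟩) | ⟨ω, a, ha, rfl⟩
    · exact ⟨-1, 1, hs, fun h => absurd h (by norm_num)⟩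
    · exact ⟨_, _, rfl, fun _ => h2 a ha⟩
    · exact ⟨0, _, rfl, fun h => absurd h (lt_irrefl _)⟩
    · refine ⟨_, _, rfl, fun hpos => ?_⟩
      by_cases hω : ω ∈ B
      · have e1 : WE l B ω = ![l, 0, 3 * l] := if_pos hω
        rw [Fin.sum_univ_three] at ha
        have e2 : ∑ j, WE l B ω j * a j = l * a 0 + 3 * l * a 2 := by
          rw [Fin.sum_univ_three, e1]
          show l * a 0 + 0 * a 1 + 3 * l * a 2 = _
          rw [zero_mul, add_zero]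
        have e3 : ∏ j, z ω j ^ a j = z ω 0 ^ a 0 * z ω 1 ^ a 1 := by
          rw [Fin.prod_univ_three]
          have e4 : z ω 2 = 1 := (hE.ec ω).z2
          rw [e4, one_pow, mul_one]
        rw [e2] at hpos ⊢
        rw [e3]
        exact hBa ω hω (a 0) (a 1) (a 2) ha (by exact_mod_cast hpos)
      · exfalso
        have e1 : WE l B ω = 0 := if_neg hω
        rw [e1] at hpos
        simp at hpos

end Pool.Agent.Y31.H.Ec2f
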