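import Pool.Agent.Y223.G.Stm10
import Pool.Agent.Y258.G.GVAG
import Pool.Agent.Y25.G.Base

/-!
# Project G: every valuation ring contains a chart (two gradings, several orbits)
-/

set_option autoImplicit false

namespace Pool.Agent.Y31.H

open Pool.Agent.Y223.G
open Pool.Agent.Y515.G (ext_val int_mem)
open Pool.Agent.Y258.G (rho_MN MN_conj rho_FS rho_fix rho_eq)
open Pool.Agent.Y25.G (MN_mul MN_one MN_zero MN_z MN_succ FS_pow)

section forms

variable {K : Type} [Field K] {m : ℕ} (z : Fin (m + 1) → K)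

/-- Splitting of monomials. -/
lemma MN_split (n : ℕ) : ∀ (r : ℕ) (x : K), x ∈ MN z (n + r) →
    ∃ y ∈ MN z n, ∃ w ∈ MN z r, x = y * w := by
  induction n with
  | zero =>
    intro r x hx
    rw [zero_add] at hx
    exact ⟨1, MN_one z, x, hx, (one_mul x).symm⟩
  | succ n ih =>
    intro r x hx
    have e : n + 1 + r = (n + r) + 1 := by omega
    rw [e] at hx
    obtain ⟨j, x', hx', rfl⟩ := MN_succ z hx
    obtain ⟨y, hy, w, hw, rfl⟩ := ih r x' hx'
    refine ⟨z j * y, ?_, w, hw, by ring⟩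
    have := MN_mul z (MN_z z j) hy
    rwa [Nat.add_comm] at this

/-- Powers of a form which generates the monomials over a valuation ring. -/
lemma MN_div_pow (n : ℕ) (F : K) (V : ValuationSubring K) (h : ∀ y ∈ MN z n, y / F ∈ V) (e : ℕ) :
    ∀ x : K, x ∈ MN z (n * e) → x / F ^ e ∈ V := by
  induction e with
  | zero =>
    intro x hx
    rw [Nat.mul_zero] at hx
    rw [MN_zero z hx, pow_zero, div_one]
    exact V.one_mem
  | succ e ih =>
    intro x hx
    rw [Nat.mul_succ, Nat.add_comm] at hx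
    obtain ⟨y, hy, w, hw, rfl⟩ := MN_split z n (n * e) x hx
    rw [pow_succ', mul_div_mul_comm]
    exact V.mul_mem _ _ (h y hy) (ih w hw)

end forms

/-- Evaluation of a Laurent polynomial at `S = π⁻¹`. -/
noncomputable def ev {K : Type} [Field K] (π : K) (hπ : π ≠ 0) : LP K →+* K :=
  LaurentPolynomial.eval₂ (RingHom.id K) (Units.mk0 π hπ)⁻¹

lemma ev_hm {K : Type} [Field K] (π : K) (hπ : π ≠ 0) (n : ℤ) (a : K) :
    ev π hπ (hm n a) = a * π ^ (-n) := by
  unfold ev hm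
  rw [LaurentPolynomial.single_eq_C_mul_T, LaurentPolynomial.eval₂_C_mul_T]
  simp

/-- Extension of a valuation ring to the field of fractions of the Laurent polynomials, such that
`v = π S` is a unit. -/
lemma ext_unit {k K K₂ : Type} [CommRing k] [Field K] [Field K₂] [Algebra k K] [Algebra k K₂]
    (ε : LP K →ₐ[k] K₂) (hε : Function.Injective ε) (V' : ValuationSubring K) (π : K)
    (hπ : π ≠ 0) : ∃ V₂ : ValuationSubring K₂, (∀ c ∈ V', ε (hm 0 c) ∈ V₂) ∧
      (∀ c, ε (hm 0 c) ∈ V₂ → c ∈ V') ∧ ε (hm 1 π) ∈ V₂ ∧ ε (hm (-1) π⁻¹) ∈ V₂ := by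
  classical
  let A : Subring (LP K) := V'.toSubring.comap (ev π hπ)
  let θ : A →+* V' := (((ev π hπ).comp A.subtype).codRestrict V'.toSubring fun a => a.2)
  let P : Ideal A := (IsLocalRing.maximalIdeal V').comap θ
  have hP : P.IsPrime := Ideal.comap_isPrime θ _
  let f0 : A →+* K₂ := (ε : LP K →+* K₂).comp A.subtype
  have hf0 : ∀ y : P.primeCompl, IsUnit (f0 y) := by
    intro y
    rw [isUnit_iff_ne_zero]
    intro h
    have h1 : ((y : A) : LP K) = 0 := hε (by rw [map_zero]; exact h)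
    apply y.2
    have h2 : (y : A) = 0 := Subtype.ext h1
    rw [h2]
    exact P.zero_mem
  let f : Localization.AtPrime P →+* K₂ := IsLocalization.lift hf0
  obtain ⟨V₂, hV, hloc⟩ := IsLocalRing.exists_factor_valuationRing f
  have hfa : ∀ a : A, ε (a : LP K) ∈ V₂ := by
    intro a
    have h1 := hV (algebraMap A (Localization.AtPrime P) a)
    rw [IsLocalization.lift_eq] at h1
    exact h1
  have hmem : ∀ c ∈ V', hm 0 c ∈ A := by
    intro c hc
    change ev π hπ (hm 0 c) ∈ V'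
    rw [ev_hm, neg_zero, zpow_zero, mul_one]
    exact hc
  refine ⟨V₂, fun c hc => hfa ⟨_, hmem c hc⟩, ?_, hfa ⟨_, ?_⟩, hfa ⟨_, ?_⟩⟩
  · intro c hc
    by_contra hcV
    have hc0 : c ≠ 0 := by
      rintro rfl
      exact hcV V'.zero_mem
    have hinv : c⁻¹ ∈ V' := (V'.mem_or_inv_mem c).resolve_left hcV
    let a : A := ⟨hm 0 c⁻¹, hmem _ hinv⟩
    have haP : a ∈ P := by
      change θ a ∈ IsLocalRing.maximalIdeal V'
      rw [IsLocalRing.mem_maximalIdeal, mem_nonunits_iff]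
      intro hu
      obtain ⟨w, hw⟩ := isUnit_iff_exists_inv.1 hu
      have h1 : ev π hπ (hm 0 c⁻¹) * (w : K) = 1 := congrArg Subtype.val hw
      rw [ev_hm, neg_zero, zpow_zero, mul_one] at h1
      have h2 : (w : K) = c := by
        rw [inv_mul_eq_one₀ hc0] at h1
        exact h1.symm
      exact hcV (h2 ▸ w.2)
    have hnu : ¬ IsUnit (algebraMap A (Localization.AtPrime P) a) := by
      rw [IsLocalization.AtPrime.isUnit_to_map_iff (Localization.AtPrime P) P]
      exact fun h => h haP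
    apply hnu
    have hfa' : f (algebraMap A (Localization.AtPrime P) a) = ε (hm 0 c⁻¹) :=
      IsLocalization.lift_eq _ _
    apply hloc.1
    refine isUnit_iff_exists_inv.2 ⟨⟨ε (hm 0 c), hc⟩, Subtype.ext ?_⟩
    change f (algebraMap A (Localization.AtPrime P) a) * ε (hm 0 c) = 1
    rw [hfa', ← map_mul, hm_mul, inv_mul_cancel₀ hc0, add_zero, hm_one, map_one]
  · change ev π hπ (hm 1 π) ∈ V'
    rw [ev_hm, zpow_neg, zpow_one, mul_inv_cancel₀ hπ]
    exact V'.one_mem
  · change ev π hπ (hm (-1) π⁻¹) ∈ V'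
    rw [ev_hm, neg_neg, zpow_one, inv_mul_cancel₀ hπ]
    exact V'.one_mem

/-- The coefficients of the elements of `R2`. -/
lemma R2_coeff {k K K₂ : Type} [CommRing k] [Field K] [Field K₂] [Algebra k K] [Algebra k K₂]
    (ε : LP K →ₐ[k] K₂) (R : Subalgebra k (LP K)) (π : K) (V : ValuationSubring K₂)
    (hk : ∀ c : k, algebraMap k K₂ c ∈ V)
    (hR : ∀ (d : ℤ) (a : K), hm d a ∈ R → ε (hm 0 a) ∈ V) (h1 : ε (hm 1 π) ∈ V)
    (h2 : ε (hm (-1) π⁻¹) ∈ V) {f : LP K₂} (hf : f ∈ R2 ε R π) (d : ℤ) : f.coeff d ∈ V := by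
  classical
  have hsum : ∀ (s : Finset ℤ) (g : ℤ → K₂), (∀ i ∈ s, g i ∈ V) → ∑ i ∈ s, g i ∈ V := by
    intro s g hg
    exact V.toSubring.sum_mem hg
  let S : Subalgebra k (LP K₂) :=
    { carrier := {f | ∀ d, f.coeff d ∈ V}
      mul_mem' := by
        intro f g hf hg d
        rw [eq_sum_hm f, eq_sum_hm g, Finset.sum_mul_sum, AddMonoidAlgebra.coeff_sum,
          Finsupp.finsetSum_apply]
        refine hsum _ _ fun a _ => ?_
        rw [AddMonoidAlgebra.coeff_sum, Finsupp.finsetSum_apply]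
        refine hsum _ _ fun b _ => ?_
        rw [hm_mul, coeff_hm]
        split_ifs
        · exact V.mul_mem _ _ (hf a) (hg b)
        · exact V.zero_mem
      add_mem' := by
        intro f g hf hg d
        rw [AddMonoidAlgebra.coeff_add, Finsupp.add_apply]
        exact V.add_mem _ _ (hf d) (hg d)
      algebraMap_mem' := by
        intro r d
        rw [algebraMap_LP, coeff_hm]
        split_ifs
        · exact hk r
        · exact V.zero_mem }
  have key : ∀ (e : ℤ) (x : K₂), x ∈ V → hm e x ∈ S := by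
    intro e x hx d
    rw [coeff_hm]
    split_ifs
    · exact hx
    · exact V.zero_mem
  have hle : R2 ε R π ≤ S := by
    unfold R2
    rw [Algebra.adjoin_le_iff]
    rintro f (⟨e, a, ha, rfl⟩ | hf)
    · exact key _ _ (hR e a ha)
    · rcases hf with rfl | rfl
      · exact key _ _ h1
      · exact key _ _ h2
  exact hle hf d

theorem t_GVAE : S_EXF → S_GVAE := by
  classical
  intro hEXF k O M Y Y₂ K K₂ G Ω _ _ _ _ _ _ _ _ _ _ _ _ _ _ _ _ _ _ _ _ _ _ _ ι ι₂ εY ε ρ ρ₂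
    HE T m z H
  obtain ⟨e⟩ : Nonempty (Fin (Nat.card G - 1 + 1) ≃ G) := by
    have h1 : 0 < Nat.card G := Nat.card_pos
    have h2 : Nat.card G - 1 + 1 = Nat.card G := by omega
    rw [h2]
    exact ⟨(Finite.equivFin G).symm⟩
  -- the orbits
  let Q : Type := MulAction.orbitRel.Quotient G Ω
  have hQfin : Finite Q := Quotient.finite _
  let _ : Fintype Q := Fintype.ofFinite Q
  let qm : Ω → Q := fun ω => Quotient.mk (MulAction.orbitRel G Ω) ω
  let rep : Q → Ω := fun q => Quotient.out q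
  have hγ0 : ∀ ω, ∃ g : G, g • rep (qm ω) = ω := by
    intro ω
    have h1 : (MulAction.orbitRel G Ω).r (rep (qm ω)) ω := Quotient.exact (Quotient.out_eq (qm ω))
    have h2 : rep (qm ω) ∈ MulAction.orbit G ω := h1
    obtain ⟨g, hg⟩ := h2
    refine ⟨g⁻¹, ?_⟩
    change g • ω = rep (qm ω) at hg
    rw [← hg, inv_smul_smul]
  have hqm : ∀ (g : G) ω, qm (g • ω) = qm ω := by
    intro g ω
    apply Quotient.sound
    exact ⟨g, rfl⟩
  choose γ hγ using hγ0
  choose dq P hdq hfin hFS hEV using fun q : Q => hEXF k K m (z (rep q)) (H.z0 (rep q))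
    (Nat.card G - 1)
  obtain ⟨d, hd⟩ : ∃ d : ℕ, d = ∏ q, dq q := ⟨_, rfl⟩
  have hd1 : 1 ≤ d := by
    rw [hd]
    exact Nat.one_le_iff_ne_zero.2 (Finset.prod_ne_zero_iff.2 fun q _ => by
      have := hdq q
      omega)
  obtain ⟨ex, hex⟩ : ∃ ex : Q → ℕ, ∀ q, dq q * ex q = d := ⟨fun q => d / dq q, fun q =>
    Nat.mul_div_cancel' (hd ▸ Finset.dvd_prod_of_mem dq (Finset.mem_univ q))⟩
  let Fam : (Q → K) → Ω → K := fun F ω => ρ (γ ω) (F (qm ω) ^ ex (qm ω))
  have hFSd : ∀ (F : Q → K), (∀ q, F q ∈ P q) → ∀ q, F q ^ ex q ∈ FS k (z (rep q)) d := by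
    intro F hF q
    have h1 := FS_pow (z (rep q)) (hFS q (F q) (hF q)) (ex q)
    rwa [hex q] at h1
  refine ⟨d, Fam '' (Set.pi Set.univ fun q => {F ∈ P q | F ≠ 0}), hd1,
    (Set.Finite.pi fun q => (hfin q).subset (Set.sep_subset _ _)).image _, ?_, ?_⟩
  · rintro _ ⟨F, hF, rfl⟩
    have hF1 : ∀ q, F q ∈ P q := fun q => (hF q (Set.mem_univ q)).1
    have hF0 : ∀ q, F q ≠ 0 := fun q => (hF q (Set.mem_univ q)).2
    refine ⟨fun ω => ?_, fun ω => ?_, fun g ω => ?_⟩
    · have h1 := rho_FS H.eqv (γ ω) (rep (qm ω)) (hFSd F hF1 (qm ω))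
      rw [hγ] at h1
      exact h1
    · exact fun h => pow_ne_zero _ (hF0 (qm ω)) ((map_eq_zero _).1 h)
    · change ρ g (ρ (γ ω) (F (qm ω) ^ ex (qm ω))) =
        ρ (γ (g • ω)) (F (qm (g • ω)) ^ ex (qm (g • ω)))
      have h1 := hγ (g • ω)
      rw [hqm] at h1
      rw [hqm, ← AlgEquiv.mul_apply, ← map_mul]
      exact rho_eq H.eqv _ _ (rep (qm ω)) (by rw [mul_smul, hγ, h1]) (hFSd F hF1 (qm ω))
  intro V hVk
  obtain ⟨V', hV'⟩ := ext_val (ι : Y →+* K) V
  have hkV : ∀ c : k, algebraMap k K c ∈ V' := fun c => by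
    have h1 : algebraMap k K c = (ι : Y →+* K) (algebraMap k Y c) := (ι.commutes c).symm
    rw [h1]
    exact (hV' _).2 (hVk c)
  have hOV : ∀ o : O, algebraMap O K o ∈ V' := fun o => by
    have := H.fin
    exact int_mem V' hkV ((Algebra.IsIntegral.isIntegral (R := k) o).algebraMap)
  choose F hF hF0 hx using fun q : Q => hEV q
    (fun i => V'.comap ((ρ (e i) : K ≃ₐ[k] K) : K →+* K))
    (fun i c => by
      rw [ValuationSubring.mem_comap]
      change ρ (e i) (algebraMap k K c) ∈ V'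
      rw [(ρ (e i)).commutes]
      exact hkV c)
  refine ⟨Fam F, ⟨F, fun q _ => ⟨hF q, hF0 q⟩, rfl⟩, ?_⟩
  intro s hs hsV N 𝔔 p l τ π hπ
  have hs0 : algebraMap k K s ≠ 0 := fun h => hs (H.injk (by rw [h, map_zero]))
  have hsV' : (algebraMap k K s)⁻¹ ∈ V' := by
    have h1 : (algebraMap k K s)⁻¹ = (ι : Y →+* K) ((algebraMap k Y s)⁻¹) := by
      rw [map_inv₀]
      exact congrArg _ (ι.commutes s).symm
    rw [h1]
    exact (hV' _).2 hsV
  -- the ratios of the monomials are in all the conjugates of the valuation ring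
  have hgen : ∀ (g : G) (q : Q), ∀ y ∈ MN (z (rep q)) d, ρ g (y / F q ^ ex q) ∈ V' := by
    intro g q y hy
    have h2 := MN_div_pow (z (rep q)) (dq q) (F q)
      (V'.comap ((ρ g : K ≃ₐ[k] K) : K →+* K)) (by
        intro y hy
        have h3 := hx q (e.symm g) y hy
        rw [e.apply_symm_apply] at h3
        exact h3) (ex q) y (by rw [hex]; exact hy)
    exact h2
  have hOL : ∀ (g : G) (r : OL O (K := K) s), ρ g (r : K) ∈ V' := by
    rintro g ⟨r, n, y, h⟩
    change ρ g r ∈ V'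
    have h1 := congrArg (ρ g) h
    rw [← map_pow, map_mul, (ρ g).commutes, H.com, map_pow] at h1
    have h2 : ρ g r = ((algebraMap k K s)⁻¹) ^ n * algebraMap O K (T g y) := by
      rw [← h1, ← mul_assoc, ← mul_pow, inv_mul_cancel₀ hs0, one_pow, one_mul]
    rw [h2]
    exact V'.mul_mem _ _ (pow_mem hsV' n) (hOV _)
  let W : Subalgebra (OL O (K := K) s) K :=
    { carrier := {x | ∀ g : G, ρ g x ∈ V'}
      mul_mem' := by
        intro a b ha hb g
        rw [map_mul]
        exact V'.mul_mem _ _ (ha g) (hb g)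
      add_mem' := by
        intro a b ha hb g
        rw [map_add]
        exact V'.add_mem _ _ (ha g) (hb g)
      algebraMap_mem' := fun r g => hOL g r }
  have hCW : CG (OL O (K := K) s) z d (Fam F) ≤ W := by
    unfold CG
    refine iSup_le fun ω => ?_
    unfold AF
    rw [Algebra.adjoin_le_iff]
    rintro y ⟨x', hx', rfl⟩ g
    have h0 : x' ∈ MN (z (γ ω • rep (qm ω))) d := by rw [hγ]; exact hx'
    obtain ⟨y', hy', rfl⟩ := MN_conj H.eqv (γ ω) (rep (qm ω)) h0
    change ρ g (ρ (γ ω) y' / ρ (γ ω) (F (qm ω) ^ ex (qm ω))) ∈ V'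
    rw [← map_div₀, ← AlgEquiv.mul_apply, ← map_mul]
    exact hgen _ _ _ hy'
  obtain ⟨V₂', hU1, hU2, hU3, hU4⟩ := ext_unit ε HE.eK.inj V' π hπ
  have hkV2 : ∀ c : k, algebraMap k K₂ c ∈ V₂' := by
    intro c
    have h1 : algebraMap k K₂ c = ε (hm 0 (algebraMap k K c)) := by
      rw [← algebraMap_LP, ε.commutes]
    rw [h1]
    exact hU1 _ (hkV c)
  refine ⟨V₂'.comap (ι₂ : Y₂ →+* K₂), ?_, ?_, ?_⟩
  · intro c
    rw [ValuationSubring.mem_comap]
    change ι₂ (algebraMap k Y₂ c) ∈ V₂'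
    rw [ι₂.commutes]
    exact hkV2 c
  · intro x hmx
    rw [ValuationSubring.mem_comap]
    change ι₂ x ∈ V₂'
    have h1 : hm 0 (ι₂ x) ∈ GRE O ε ρ z s 𝔔 p l τ π d (Fam F) := by
      have h2 : AddMonoidAlgebra.mapAlgHom (R := k) ℤ ι₂ (hm 0 x) ∈
        GRE O ε ρ z s 𝔔 p l τ π d (Fam F) := hmx
      have h3 : AddMonoidAlgebra.mapAlgHom (R := k) ℤ ι₂ (hm 0 x) = hm 0 (ι₂ x) :=
        AddMonoidAlgebra.mapAlgHom_single _ _ _
      rwa [h3] at h2
    have h2 := R2_coeff ε (GRG O ρ z s 𝔔 p l τ d (Fam F)) π V₂' hkV2 (by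
      intro d' a ha
      have h3 : hm d' a ∈ RR k 1 1 (⊤ : Ideal (OL O (K := K) s)) 0
          (CG (OL O (K := K) s) z d (Fam F)) := ha.1
      have h4 : a ∈ CG (OL O (K := K) s) z d (Fam F) := RR_mem_C (fun c hc => hc) h3
      have h5 := hCW h4 1
      rw [map_one] at h5
      exact hU1 a h5) hU3 hU4 h1 0
    rwa [coeff_hm_same] at h2
  · intro x hx2
    rw [ValuationSubring.mem_comap] at hx2
    change ι₂ (εY (hm 0 x)) ∈ V₂' at hx2
    rw [HE.com] at hx2
    exact (hV' x).1 (hU2 _ hx2)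

end Pool.Agent.Y31.H
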